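import Pool.Graph.R_seed8.Results.MP_38057e_co.ThreeTrees

set_option autoImplicit false

/-! MP_38057e_co: `f(r,3,n) = (r-1) n / r³ + O_r(1)`, with explicit constants. -/

namespace Pool.Agent.Results.MP_38057e_co.BoundedError

open Pool.Agent.R150.TT

/-- For every `r ≥ 4` and every `n`, the number `f(r,3,n)` differs from `(r-1) n / r³` by a bounded
amount: it is at least `(r-1) n / r³ - 1` and at most `(r-1) n / r³ + (r-1)⁴`. Consequently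
`|f(r,3,n) / n - (r-1) / r³| ≤ (r-1)⁴ / n` for all `n ≥ 1`. -/
theorem result (r : ℕ) (hr : 4 ≤ r) (n : ℕ) :
    ((r : ℝ) - 1) / (r : ℝ) ^ 3 * n - 1 ≤ (fNum r 3 n : ℝ) ∧
    (fNum r 3 n : ℝ) ≤ ((r : ℝ) - 1) / (r : ℝ) ^ 3 * n + ((r : ℝ) - 1) ^ 4 ∧
    (1 ≤ n → |(fNum r 3 n : ℝ) / n - ((r : ℝ) - 1) / (r : ℝ) ^ 3| ≤ ((r : ℝ) - 1) ^ 4 / n) := by
  have hr0 : (4 : ℝ) ≤ r := by exact_mod_cast hr
  have hr3 : (0 : ℝ) < (r : ℝ) ^ 3 := by positivity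
  have hr1 : (0 : ℝ) < (r : ℝ) - 1 := by linarith
  have hq : (((r - 1 : ℕ) : ℝ)) = (r : ℝ) - 1 := by
    rw [Nat.cast_sub (by omega)]; simp
  have h1 : ((r : ℝ) - 1) / (r : ℝ) ^ 3 * n - 1 ≤ (fNum r 3 n : ℝ) := by
    have h := Pool.Agent.Results.MP_38057e_co.ThreeTrees.num_lower hr n
    have h' : ((r : ℝ) - 1) * n ≤ (r : ℝ) ^ 3 * (fNum r 3 n + 1) := by
      rw [← hq]
      exact_mod_cast h
    rw [div_mul_eq_mul_div, sub_le_iff_le_add, div_le_iff₀ hr3]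
    linarith
  have h2 : (fNum r 3 n : ℝ) ≤ ((r : ℝ) - 1) / (r : ℝ) ^ 3 * n + ((r : ℝ) - 1) ^ 4 := by
    have h := Pool.Agent.Results.MP_38057e_co.ThreeTrees.num_upper hr n
    have hLL : ((LL r : ℕ) : ℝ) = ((r : ℝ) * ((r : ℝ) - 1)) ^ 3 := by
      unfold LL
      push_cast
      rw [hq]
    have hdiv : ((n / LL r : ℕ) : ℝ) ≤ (n : ℝ) / (LL r : ℕ) := Nat.cast_div_le
    have h' : (fNum r 3 n : ℝ) ≤ ((r : ℝ) - 1) ^ 4 * ((n : ℝ) / (LL r : ℕ) + 1) := by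
      have h1 : (fNum r 3 n : ℝ) ≤ (((r - 1 : ℕ) : ℝ)) ^ 4 * (((n / LL r : ℕ) : ℝ) + 1) := by
        exact_mod_cast h
      rw [hq] at h1
      refine h1.trans ?_
      apply mul_le_mul_of_nonneg_left _ (by positivity)
      linarith
    refine h'.trans (le_of_eq ?_)
    rw [hLL]
    field_simp
  refine ⟨h1, h2, fun hn => ?_⟩
  have hn' : (0 : ℝ) < n := by exact_mod_cast hn
  have e : (fNum r 3 n : ℝ) / n - ((r : ℝ) - 1) / (r : ℝ) ^ 3 =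
      ((fNum r 3 n : ℝ) - ((r : ℝ) - 1) / (r : ℝ) ^ 3 * n) / n := by
    field_simp
  rw [e, abs_div, abs_of_pos hn']
  apply div_le_div_of_nonneg_right _ hn'.le
  have h4 : (1 : ℝ) ≤ ((r : ℝ) - 1) ^ 4 := one_le_pow₀ (by linarith)
  rw [abs_le]
  constructor <;> linarith

end Pool.Agent.Results.MP_38057e_co.BoundedError
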